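import Pool.Agent.HF.Stmts

/-!
# PZC: closure properties of poly-infinite-cyclic groups
-/

namespace Pool.Agent.HF.H74

open Pool.Agent.HF

theorem pz_triv (P : Type) [Group P] [Subsingleton P] : IsPZ P :=
  ⟨{ m := 0
     N := fun _ => ⊤
     bot := Subsingleton.elim _ _
     top := rfl
     mono := fun _ => le_rfl
     c := fun _ _ => 0
     c_mul := by intros; simp
     c_ker := by intros; simp }⟩

theorem pz_sub (L P : Type) [Group L] [Group P] (φ : L →* P) (hφ : Function.Injective φ)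
    (h : IsPZ P) : IsPZ L := by
  obtain ⟨Z⟩ := h
  refine ⟨{ m := Z.m
            N := fun i => (Z.N i).comap φ
            bot := ?_
            top := ?_
            mono := fun i => Subgroup.comap_mono (Z.mono i)
            c := fun i x => Z.c i (φ x)
            c_mul := ?_
            c_ker := ?_ }⟩
  · rw [Z.bot, MonoidHom.comap_bot, MonoidHom.ker_eq_bot_iff]
    exact hφ
  · rw [Z.top, Subgroup.comap_top]
  · intro i x hx y hy
    simp only [map_mul]
    exact Z.c_mul i _ hx _ hy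
  · intro i x hx
    exact Z.c_ker i _ hx

theorem pz_top {P : Type} [Group P] (Z : PZ P) {i : ℕ} (h : Z.m ≤ i) : Z.N i = ⊤ := by
  have hm : Monotone Z.N := monotone_nat_of_le_succ Z.mono
  have := hm h
  rw [Z.top] at this
  exact top_le_iff.mp this

theorem pz_prod (P Q : Type) [Group P] [Group Q] (hP : IsPZ P) (hQ : IsPZ Q) :
    IsPZ (P × Q) := by
  obtain ⟨Z⟩ := hP
  obtain ⟨W⟩ := hQ
  refine ⟨{ m := Z.m + W.m
            N := fun i => (Z.N i).prod (W.N (i - Z.m))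
            bot := ?_
            top := ?_
            mono := ?_
            c := fun i x => if i < Z.m then Z.c i x.1 else W.c (i - Z.m) x.2
            c_mul := ?_
            c_ker := ?_ }⟩
  · simp only [Nat.zero_sub]
    rw [Z.bot, W.bot]
    exact Subgroup.bot_prod_bot
  · have h1 : Z.N (Z.m + W.m) = ⊤ := pz_top Z (Nat.le_add_right _ _)
    have h2 : W.N (Z.m + W.m - Z.m) = ⊤ := pz_top W (by omega)
    change (Z.N (Z.m + W.m)).prod (W.N (Z.m + W.m - Z.m)) = ⊤
    rw [h1, h2]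
    exact Subgroup.top_prod_top
  · intro i
    refine Subgroup.prod_mono (Z.mono i) ?_
    rcases Nat.lt_or_ge i Z.m with h | h
    · rw [Nat.sub_eq_zero_of_le h.le, Nat.sub_eq_zero_of_le (Nat.succ_le_of_lt h)]
    · rw [Nat.sub_add_comm h]
      exact W.mono _
  · intro i x hx y hy
    rw [Subgroup.mem_prod] at hx hy
    split_ifs with h
    · exact Z.c_mul i _ hx.1 _ hy.1
    · rw [Nat.sub_add_comm (not_lt.mp h)] at hx hy
      exact W.c_mul _ _ hx.2 _ hy.2
  · intro i x hx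
    rw [Subgroup.mem_prod] at hx ⊢
    split_ifs with h
    · rw [Z.c_ker i _ hx.1]
      have h1 : i - Z.m = i + 1 - Z.m := by omega
      rw [h1]
      exact ⟨fun h2 => ⟨h2, hx.2⟩, fun h2 => h2.1⟩
    · rw [Nat.sub_add_comm (not_lt.mp h)] at hx
      rw [W.c_ker _ _ hx.2, pz_top Z (not_lt.mp h)]
      simp

theorem pz_chi (P : Type) [Group P] (hP : IsPZ P) (H : Subgroup P) (hH : H ≠ ⊥) :
    ∃ c : P → ℤ, (∀ x ∈ H, ∀ y ∈ H, c (x * y) = c x + c y) ∧ ∃ t ∈ H, c t = 1 := by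
  classical
  obtain ⟨Z⟩ := hP
  have hex : ∃ j, H ≤ Z.N j := ⟨Z.m, by rw [Z.top]; exact le_top⟩
  obtain ⟨i, hi⟩ : ∃ i, Nat.find hex = i + 1 := by
    refine Nat.exists_eq_succ_of_ne_zero fun h0 => hH ?_
    have := Nat.find_spec hex
    rw [h0, Z.bot] at this
    exact le_bot_iff.mp this
  have h1 : H ≤ Z.N (i + 1) := hi ▸ Nat.find_spec hex
  have h2 : ¬ H ≤ Z.N i := Nat.find_min hex (by omega)
  obtain ⟨h, hh, hhi⟩ := Set.not_subset.mp h2
  have hz : Z.c i h ≠ 0 := fun h0 => hhi ((Z.c_ker i h (h1 hh)).mp h0)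
  have hone : Z.c i 1 = 0 := (Z.c_ker i 1 (one_mem _)).mpr (one_mem _)
  have hinv : ∀ x ∈ H, Z.c i x⁻¹ = - Z.c i x := by
    intro x hx
    have := Z.c_mul i x (h1 hx) x⁻¹ (h1 (inv_mem hx))
    rw [mul_inv_cancel, hone] at this
    omega
  let A : AddSubgroup ℤ :=
    { carrier := {z | ∃ x ∈ H, Z.c i x = z}
      zero_mem' := ⟨1, one_mem _, hone⟩
      add_mem' := by
        rintro a b ⟨x, hx, rfl⟩ ⟨y, hy, rfl⟩
        exact ⟨x * y, mul_mem hx hy, Z.c_mul i x (h1 hx) y (h1 hy)⟩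
      neg_mem' := by
        rintro a ⟨x, hx, rfl⟩
        exact ⟨x⁻¹, inv_mem hx, hinv x hx⟩ }
  obtain ⟨d, hd⟩ := Int.subgroup_cyclic A
  have hAd : ∀ z, z ∈ A ↔ d ∣ z := by
    intro z
    rw [hd, AddSubgroup.mem_closure_singleton]
    constructor
    · rintro ⟨k, rfl⟩
      exact ⟨k, by simp [mul_comm]⟩
    · rintro ⟨k, rfl⟩
      exact ⟨k, by simp [mul_comm]⟩
  have hd0 : d ≠ 0 := by
    rintro rfl
    have : Z.c i h ∈ A := ⟨h, hh, rfl⟩
    rw [hAd] at this
    exact hz (zero_dvd_iff.mp this)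
  refine ⟨fun x => Z.c i x / d, ?_, ?_⟩
  · intro x hx y hy
    change Z.c i (x * y) / d = Z.c i x / d + Z.c i y / d
    rw [Z.c_mul i x (h1 hx) y (h1 hy)]
    exact Int.add_ediv_of_dvd_left ((hAd _).mp ⟨x, hx, rfl⟩)
  · obtain ⟨t, ht, htd⟩ := (hAd d).mpr dvd_rfl
    exact ⟨t, ht, by change Z.c i t / d = 1; rw [htd]; exact Int.ediv_self hd0⟩

theorem pzc : PzcStmt where
  triv := fun P _ _ => pz_triv P
  sub := fun L P _ _ φ hφ h => pz_sub L P φ hφ h
  prod := fun P Q _ _ hP hQ => pz_prod P Q hP hQ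
  chi := fun P _ hP H hH => pz_chi P hP H hH

end Pool.Agent.HF.H74
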