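import Pool.Agent.HF.Stmts

/-!
# HFP: independence of powers in the skew field of fractions of a poly-infinite-cyclic group
-/

namespace Pool.Agent.HF.H74

open Pool.Agent.HF Pool.Agent.Glue Pool.Agent.FB Pool.Agent.CD

section

variable {P : Type} [Group P]

theorem of_inj (F : OF P) : Function.Injective (ext F.sg) := by
  rw [injective_iff_map_eq_zero]
  intro a ha
  have h : ∀ b : MonoidAlgebra F2 P,
      ext F.sg b = b.coeff.sum fun g c => (c.val : F.D) * F.sg g := by
    intro b
    rw [ext, MonoidAlgebra.lift_apply']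
    refine Finsupp.sum_congr fun g _ => ?_
    congr 1
  rw [h] at ha
  exact MonoidAlgebra.coeff_eq_zero.mp (F.inj a.coeff ha)

/-- The kernel as a subgroup. -/
def kerS (H : Subgroup P) (c : P → ℤ)
    (hc : ∀ x ∈ H, ∀ y ∈ H, c (x * y) = c x + c y) : Subgroup P where
  carrier := {x | x ∈ H ∧ c x = 0}
  one_mem' := by
    refine ⟨one_mem _, ?_⟩
    have := hc 1 (one_mem _) 1 (one_mem _)
    rw [one_mul] at this
    omega
  mul_mem' := by
    rintro a b ⟨ha, ha0⟩ ⟨hb, hb0⟩
    exact ⟨mul_mem ha hb, by rw [hc a ha b hb, ha0, hb0, add_zero]⟩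
  inv_mem' := by
    rintro a ⟨ha, ha0⟩
    refine ⟨inv_mem ha, ?_⟩
    have h1 := hc 1 (one_mem _) 1 (one_mem _)
    have h2 := hc a ha a⁻¹ (inv_mem ha)
    rw [one_mul] at h1
    rw [mul_inv_cancel] at h2
    omega

theorem c_zpow (H : Subgroup P) (c : P → ℤ)
    (hc : ∀ x ∈ H, ∀ y ∈ H, c (x * y) = c x + c y) (t : P) (ht : t ∈ H) (h1 : c t = 1) (i : ℤ) :
    c (t ^ i) = i := by
  have h0 : c 1 = 0 := by
    have := hc 1 (one_mem _) 1 (one_mem _)
    rw [one_mul] at this
    omega
  have hn : ∀ n : ℕ, c (t ^ n) = n := by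
    intro n
    induction n with
    | zero => simpa using h0
    | succ n ih => rw [pow_succ, hc _ (pow_mem ht n) _ ht, ih, h1]; push_cast; ring
  obtain ⟨n, rfl | rfl⟩ := i.eq_nat_or_neg
  · rw [zpow_natCast]
    exact hn n
  · rw [zpow_neg, zpow_natCast]
    have := hc (t ^ n) (pow_mem ht n) (t ^ n)⁻¹ (inv_mem (pow_mem ht n))
    rw [mul_inv_cancel, h0, hn] at this
    omega

/-- The inclusion of the group ring of a subgroup. -/
noncomputable def iK (F : OF P) (K : Subgroup P) : MonoidAlgebra F2 K →ₐ[F2] F.D :=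
  (ext F.sg).comp (MonoidAlgebra.mapDomainAlgHom F2 F2 K.subtype)

theorem iK_inj (F : OF P) (K : Subgroup P) : Function.Injective (iK F K) := by
  rw [iK, AlgHom.coe_comp]
  refine (of_inj F).comp ?_
  exact MonoidAlgebra.mapDomain_injective K.subtype_injective

theorem frac_mem (hO : PzoStmt) (F : OF P) (K : Subgroup P) (hK : IsPZ K) (x : F.D)
    (hx : x ∈ DS F.sg (K : Set P)) :
    ∃ a b : MonoidAlgebra F2 K, a ≠ 0 ∧ iK F K a * x = iK F K b := by
  have hne : ∀ a : MonoidAlgebra F2 K, a ≠ 0 → iK F K a ≠ 0 := by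
    intro a ha h0
    exact ha (iK_inj F K (by rw [h0, map_zero]))
  have hmul : ∀ a b : MonoidAlgebra F2 K, a ≠ 0 → b ≠ 0 → a * b ≠ 0 := by
    intro a b ha hb h0
    have := congrArg (iK F K) h0
    rw [map_mul, map_zero] at this
    exact mul_ne_zero (hne a ha) (hne b hb) this
  refine Subfield.closure_induction (p := fun x _ => ∃ a b : MonoidAlgebra F2 K, a ≠ 0 ∧
    iK F K a * x = iK F K b) ?_ ?_ ?_ ?_ ?_ ?_ hx
  · rintro _ ⟨g, hg, rfl⟩
    refine ⟨1, MonoidAlgebra.single ⟨g, hg⟩ 1, one_ne_zero, ?_⟩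
    rw [map_one, one_mul, iK, AlgHom.comp_apply, MonoidAlgebra.mapDomainAlgHom_apply,
      MonoidAlgebra.mapDomain_single, ext, MonoidAlgebra.lift_single, one_smul]
    rfl
  · exact ⟨1, 1, one_ne_zero, by rw [map_one, one_mul]⟩
  · rintro x y - - ⟨a, b, ha, hab⟩ ⟨a', b', ha', hab'⟩
    obtain ⟨p, q, hp, hpq⟩ := hO K hK a a' ha'
    refine ⟨p * a, p * b + q * b', hmul p a hp ha, ?_⟩
    rw [mul_add, map_add]
    congr 1
    · rw [map_mul, map_mul, mul_assoc, hab]
    · rw [hpq, map_mul, map_mul, mul_assoc, hab']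
  · rintro x - ⟨a, b, ha, hab⟩
    exact ⟨a, -b, ha, by rw [mul_neg, hab, map_neg]⟩
  · rintro x - ⟨a, b, ha, hab⟩
    rcases eq_or_ne x 0 with rfl | hx0
    · exact ⟨1, 0, one_ne_zero, by rw [inv_zero, mul_zero, map_zero]⟩
    · refine ⟨b, a, ?_, ?_⟩
      · rintro rfl
        rw [map_zero] at hab
        exact mul_ne_zero (hne a ha) hx0 hab
      · rw [← hab, mul_assoc, mul_inv_cancel₀ hx0, mul_one]
  · rintro x y - - ⟨a, b, ha, hab⟩ ⟨a', b', ha', hab'⟩
    obtain ⟨p, q, hp, hpq⟩ := hO K hK b a' ha'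
    refine ⟨p * a, q * b', hmul p a hp ha, ?_⟩
    rw [map_mul, ← mul_assoc, mul_assoc (iK F K p), hab, ← map_mul, hpq, map_mul, mul_assoc, hab',
      map_mul]

theorem common (hO : PzoStmt) (F : OF P) (K : Subgroup P) (hK : IsPZ K) (f : ℤ → F.D)
    (hf : ∀ i, f i ∈ DS F.sg (K : Set P)) (s : Finset ℤ) :
    ∃ a : MonoidAlgebra F2 K, a ≠ 0 ∧ ∃ b : ℤ → MonoidAlgebra F2 K, ∀ i ∈ s,
      iK F K a * f i = iK F K (b i) := by
  classical
  have hne : ∀ a : MonoidAlgebra F2 K, a ≠ 0 → iK F K a ≠ 0 := by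
    intro a ha h0
    exact ha (iK_inj F K (by rw [h0, map_zero]))
  have hmul : ∀ a b : MonoidAlgebra F2 K, a ≠ 0 → b ≠ 0 → a * b ≠ 0 := by
    intro a b ha hb h0
    have := congrArg (iK F K) h0
    rw [map_mul, map_zero] at this
    exact mul_ne_zero (hne a ha) (hne b hb) this
  induction s using Finset.induction_on with
  | empty => exact ⟨1, one_ne_zero, fun _ => 0, by simp⟩
  | insert j s hj ih =>
    obtain ⟨a, ha, b, hb⟩ := ih
    obtain ⟨a', b', ha', hab'⟩ := frac_mem hO F K hK (f j) (hf j)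
    obtain ⟨p, q, hp, hpq⟩ := hO K hK a a' ha'
    refine ⟨p * a, hmul p a hp ha, fun i => if i = j then q * b' else p * b i, ?_⟩
    intro i hi
    rcases Finset.mem_insert.mp hi with rfl | hi
    · simp only [if_true]
      rw [hpq, map_mul, map_mul, mul_assoc, hab']
    · have hij : i ≠ j := fun h => hj (h ▸ hi)
      simp only [hij, if_false]
      rw [map_mul, map_mul, mul_assoc, hb i hi]

theorem mapD (K : Subgroup P) (s : P) (x : MonoidAlgebra F2 K) :
    MonoidAlgebra.mapDomain (fun k : K => (k : P) * s) x =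
      MonoidAlgebra.mapDomainAlgHom F2 F2 K.subtype x * MonoidAlgebra.single s 1 := by
  induction x using MonoidAlgebra.induction_linear with
  | zero => simp
  | add x y hx hy => rw [MonoidAlgebra.mapDomain_add, hx, hy, map_add, add_mul]
  | single k r =>
    rw [MonoidAlgebra.mapDomain_single, MonoidAlgebra.mapDomainAlgHom_apply,
      MonoidAlgebra.mapDomain_single, MonoidAlgebra.single_mul_single, mul_one]
    rfl

end

theorem hfp (hC : PzcStmt) (_hD : PzdStmt) (hO : PzoStmt) : HfpStmt := by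
  classical
  intro P _ hP F H c hc t ht ht1 f hf hsum
  have hK : IsPZ (kerS H c hc) := hC.sub _ P (kerS H c hc).subtype (Subgroup.subtype_injective _) hP
  set K := kerS H c hc with hKdef
  obtain ⟨a, ha, b, hb⟩ := common hO F K hK f hf f.support
  -- the element of the group ring
  let B : MonoidAlgebra F2 P := ∑ i ∈ f.support,
    MonoidAlgebra.mapDomain (fun k : K => (k : P) * t ^ i) (b i)
  have hB : ext F.sg B = 0 := by
    have h1 : ∀ i, ext F.sg (MonoidAlgebra.mapDomain (fun k : K => (k : P) * t ^ i) (b i)) =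
        iK F K (b i) * (F.sg t) ^ i := by
      intro i
      rw [mapD, map_mul, iK, AlgHom.comp_apply]
      congr 1
      rw [ext, MonoidAlgebra.lift_single, one_smul, map_zpow]
    rw [map_sum]
    simp only [h1]
    have h3 : ∑ i ∈ f.support, iK F K (b i) * (F.sg t) ^ i =
        iK F K a * f.sum fun i d => d * (F.sg t) ^ i := by
      rw [Finsupp.sum, Finset.mul_sum]
      refine Finset.sum_congr rfl fun i hi => ?_
      rw [← hb i hi, mul_assoc]
    rw [h3, hsum, mul_zero]
  have hB0 : B = 0 := of_inj F (by rw [hB, map_zero])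
  have hne : iK F K a ≠ 0 := by
    intro h0
    exact ha (iK_inj F K (by rw [h0, map_zero]))
  ext i
  by_contra hi
  have hi' : i ∈ f.support := Finsupp.mem_support_iff.mpr hi
  have hbi : b i = 0 := by
    refine MonoidAlgebra.coeff_injective (Finsupp.ext fun k => ?_)
    have h4 : B.coeff ((k : P) * t ^ i) = 0 := by rw [hB0]; rfl
    have h5 : B.coeff ((k : P) * t ^ i) = ∑ j ∈ f.support,
        (Finsupp.mapDomain (fun k : K => (k : P) * t ^ j) (b j).coeff) ((k : P) * t ^ i) := by
      change (∑ j ∈ f.support, MonoidAlgebra.mapDomain (fun k : K => (k : P) * t ^ j) (b j)).coeff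
        ((k : P) * t ^ i) = _
      rw [MonoidAlgebra.coeff_sum, Finsupp.finsetSum_apply]
      rfl
    have hinj : Function.Injective (fun k : K => (k : P) * t ^ i) := by
      intro x y hxy
      exact Subtype.ext (mul_right_cancel hxy)
    rw [h5, Finset.sum_eq_single i] at h4
    · rw [Finsupp.mapDomain_apply hinj] at h4
      exact h4
    · intro j _ hj
      refine Finsupp.mapDomain_of_notMem_range _ _ ?_
      rintro ⟨k', hk'⟩
      have hk1 : (k : P) ∈ H := k.2.1
      have hk2 : (k' : P) ∈ H := k'.2.1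
      have h6 : c ((k' : P) * t ^ j) = c ((k : P) * t ^ i) := congrArg c hk'
      rw [hc _ hk2 _ (zpow_mem ht j), hc _ hk1 _ (zpow_mem ht i), c_zpow H c hc t ht ht1,
        c_zpow H c hc t ht ht1, k.2.2, k'.2.2] at h6
      exact hj (by omega)
    · intro h
      exact absurd hi' h
  have h7 := hb i hi'
  rw [hbi, map_zero] at h7
  exact hi ((mul_eq_zero.mp h7).resolve_left hne)

end Pool.Agent.HF.H74
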